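import Pool.Agent.H.MP_df75a5_an.A

set_option autoImplicit false

namespace Pool.Agent.Results.MP_df75a5_an.No

open Pool.Agent.H.MP_df75a5_an

theorem result (α : ℝ) : ∃ E : Set ℕ, (∀ x ∈ E, 1 ≤ x) ∧ 0 < ud E ∧
    ¬ Thick (R (fun t => t ^ (3 / 2 : ℝ)) E ∩ R (fun t => α * t ^ (3 / 2 : ℝ) + t) E) := core α

end Pool.Agent.Results.MP_df75a5_an.No
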